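import Pool.Agent.Lib.MP_df87fb_al.U.Log

namespace Pool.Agent.Results.MP_df87fb_al.AllGroups

open Pool.Agent.Lib.MP_df87fb_al Pool.Agent.Lib.MP_df87fb_al.U SemidirectProduct Multiplicative

/-- Every group with any finite generating family has a quasiregular normal form with a sublinear
fellow traveler property, at the rate of the inverse growth function. -/
theorem result (G : Type) [Group G] (m : ℕ) (x : Fin m → G)
    (hx : Subgroup.closure (Set.range x) = ⊤) :
    ∃ L : Set (List (Fin m × Bool)), IsNormalForm x L ∧ Quasiregular L ∧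
      (∃ f, FellowTraveler x L f) ∧
      (∃ C : ℕ, ∀ n r : ℕ, 2 * n + 10 < (wordBall x r).ncard → fellowFun x L n ≤ 40 * r + C) ∧
      ((∃ c : ℕ, ∀ r : ℕ, 2 ^ r ≤ (wordBall x (c * r)).ncard) →
        FellowTraveler x L fun n => Real.log ((n : ℝ) + 1)) := by
  have hg := gen_of_closure hx
  obtain ⟨L, h1, h2, h3, h4⟩ := hg.quasi
  exact ⟨L, h1, ⟨5, h2⟩, hg.fellow h3, h4, log_rate h4⟩

theorem torus_gen (M : GL (Fin 2) ℤ) : Subgroup.closure (Set.range
    (![inl (ofAdd ![1, 0]), inl (ofAdd ![0, 1]), inr (ofAdd 1)] :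
      Fin 3 → TorusBundleGroup M)) = ⊤ := by
  rw [eq_top_iff]
  intro g _
  rw [← inl_left_mul_inr_right g]
  have e1 : g.left = ofAdd ![1, 0] ^ toAdd g.left 0 * ofAdd ![0, 1] ^ toAdd g.left 1 := by
    rw [← ofAdd_zsmul, ← ofAdd_zsmul, ← ofAdd_add, ← ofAdd_toAdd g.left]
    congr 1
    ext i
    fin_cases i <;> simp
  have e2 : g.right = ofAdd 1 ^ toAdd g.right := by
    rw [← ofAdd_zsmul]
    simp
  rw [e1, e2, map_mul, map_zpow, map_zpow, map_zpow]
  refine mul_mem (mul_mem (zpow_mem (Subgroup.subset_closure ?_) _)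
    (zpow_mem (Subgroup.subset_closure ?_) _)) (zpow_mem (Subgroup.subset_closure ?_) _)
  exacts [⟨0, rfl⟩, ⟨1, rfl⟩, ⟨2, rfl⟩]

/-- The case of the torus-bundle groups, for every monodromy. -/
theorem torus_case (M : GL (Fin 2) ℤ) : ∃ (m : ℕ) (x : Fin m → TorusBundleGroup M),
    Subgroup.closure (Set.range x) = ⊤ ∧ ∃ L : Set (List (Fin m × Bool)),
      IsNormalForm x L ∧ Quasiregular L ∧ ∃ f, FellowTraveler x L f := by
  obtain ⟨L, h1, h2, h3, -⟩ := result _ 3 _ (torus_gen M)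
  exact ⟨3, _, torus_gen M, L, h1, h2, h3⟩

end Pool.Agent.Results.MP_df87fb_al.AllGroups
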