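import Pool.Agent.Lib.MP_df87fb_al.U.Log

namespace Pool.Agent.Results.MP_df87fb_al.ClosedForm

open Pool.Agent.Lib.MP_df87fb_al Pool.Agent.Lib.MP_df87fb_al.U

/-- Every finitely generated group has, over a suitable finite generating family, a normal form
closed under initial segments with a sublinear fellow traveler property, at the rate of the
inverse growth function. -/
theorem result (G : Type) [Group G] (m : ℕ) (x : Fin m → G)
    (hx : Subgroup.closure (Set.range x) = ⊤) :
    ∃ (k : ℕ) (y : Fin k → G), Subgroup.closure (Set.range y) = ⊤ ∧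
      ∃ L : Set (List (Fin k × Bool)), IsNormalForm y L ∧ PrefixClosed L ∧
      (∃ f, FellowTraveler y L f) ∧
      (∃ C : ℕ, ∀ n r : ℕ, 2 * n + 10 < (wordBall x r).ncard → fellowFun y L n ≤ 40 * r + C) ∧
      ((∃ c : ℕ, ∀ r : ℕ, 2 ^ r ≤ (wordBall x (c * r)).ncard) →
        FellowTraveler y L fun n => Real.log ((n : ℝ) + 1)) := by
  obtain ⟨k, y, hy, L, k1, k2, k3, k4⟩ := (gen_of_closure hx).closed
  exact ⟨k, y, hy.closure, L, k1, k2, hy.fellow k3, k4, log_rate k4⟩

end Pool.Agent.Results.MP_df87fb_al.ClosedForm
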